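import Mathlib
import Pool.Agent.H7.Unstack

set_option autoImplicit false

namespace Pool.Agent.Results.MP_1611d4_co.NoSuchSphere

variable {V : Type} [DecidableEq V]

/-- A finite abstract simplicial complex, given by its set of faces. -/
def IsComplex (K : Set (Finset V)) : Prop :=
  K.Finite ∧ K.Nonempty ∧ ∀ F ∈ K, ∀ G, G ⊆ F → G ∈ K

/-- A facet is a face that is maximal under inclusion. -/
def Facet (K : Set (Finset V)) (F : Finset V) : Prop := F ∈ K ∧ ∀ G ∈ K, F ⊆ G → G = F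

/-- All facets have the same number of vertices. -/
def Pure (K : Set (Finset V)) : Prop := ∀ F G, Facet K F → Facet K G → F.card = G.card

/-- The link of a vertex. -/
def link (K : Set (Finset V)) (v : V) : Set (Finset V) := {G | v ∉ G ∧ insert v G ∈ K}

/-- The deletion of a vertex. -/
def del (K : Set (Finset V)) (v : V) : Set (Finset V) := {G | v ∉ G ∧ G ∈ K}

/-- Vertex decomposable pure complexes (Provan and Billera). -/
inductive VD : Set (Finset V) → Prop
  | simplex (F : Finset V) : VD {G | G ⊆ F}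
  | step (K : Set (Finset V)) (v : V) : Pure K → {v} ∈ K → VD (link K v) → VD (del K v) →
      (∀ F, Facet (link K v) F → ¬ Facet (del K v) F) → VD K

/-- Shellable pure complexes. -/
def Shellable (K : Set (Finset V)) : Prop :=
  Pure K ∧ ∃ (m : ℕ) (F : Fin m → Finset V), Function.Injective F ∧
    (∀ G, Facet K G ↔ ∃ i, F i = G) ∧
    ∀ j : Fin m, 0 < j.val →
      ∀ H, Facet {G | G ⊆ F j ∧ ∃ i, i < j ∧ G ⊆ F i} H → H.card + 1 = (F j).card

/-- Stacking all facets: the facet `F` is replaced by the cone with the new apex `inr F` over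
its proper faces. -/
def stackAll (K : Set (Finset V)) : Set (Finset (V ⊕ Finset V)) :=
  {H | (∃ G ∈ K, ¬ Facet K G ∧ H = G.map Function.Embedding.inl) ∨
    ∃ F G, Facet K F ∧ (G ⊂ F ∧ H = insert (Sum.inr F) (G.map Function.Embedding.inl))}

open Pool.Agent.H7.Unstack Finset

omit [DecidableEq V] in
lemma facet_card {d : ℕ} {K : Set (Finset V)} (h : ∀ G ∈ K, ∃ F ∈ K, G ⊆ F ∧ F.card = d)
    (G : Finset V) : Facet K G ↔ G ∈ K ∧ G.card = d := by
  constructor
  · rintro ⟨h1, h2⟩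
    obtain ⟨F, hF, h3, h4⟩ := h G h1
    exact ⟨h1, h2 F hF h3 ▸ h4⟩
  · rintro ⟨h1, h2⟩
    refine ⟨h1, fun F hF h3 => ?_⟩
    obtain ⟨F', -, h4, h5⟩ := h F hF
    exact (eq_of_subset_of_card_le h3 (by have := card_le_card h4; omega)).symm

lemma vdd_of_vd {K : Set (Finset V)} (h : VD K) : Down K → ∃ d, VDd d K := by
  induction h with
  | simplex F => exact fun _ => ⟨_, VDd.simplex F⟩
  | step K v hp hv _ _ hf ih1 ih2 =>
    intro hK
    obtain ⟨d1, h1⟩ := ih1 (fun F hF G hG =>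
      ⟨fun h => hF.1 (hG h), hK _ hF.2 _ (insert_subset_insert _ hG)⟩)
    obtain ⟨d2, h2⟩ := ih2 (down_dl hK v)
    obtain ⟨F, hF, -, h3⟩ := h1.ext ∅ h1.empty_mem
    obtain ⟨G, hG, -, h4⟩ := h2.ext ∅ h2.empty_mem
    have hF' : F ∈ del K v := ⟨hF.1, hK _ hF.2 _ (subset_insert _ _)⟩
    have h5 : d1 ≠ d2 := fun e => hf F ((facet_card h1.ext F).mpr ⟨hF, h3⟩)
      ((facet_card h2.ext F).mpr ⟨hF', h3.trans e⟩)
    have h6 := h2.card_le F hF'
    have h7 : ∀ H ∈ K, v ∈ H → H.card ≤ d1 + 1 := fun H hH hvH => by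
      have := h1.card_le (H.erase v) ⟨notMem_erase _ _, by rwa [insert_erase hvH]⟩
      rw [card_erase_of_mem hvH] at this
      omega
    have f1 : Facet K (insert v F) := ⟨hF.2, fun H hH h8 => (eq_of_subset_of_card_le h8 (by
      rw [card_insert_of_notMem hF.1, h3]
      exact h7 H hH (h8 (mem_insert_self _ _)))).symm⟩
    have f2 : Facet K G := ⟨hG.2, fun H hH h8 => (eq_of_subset_of_card_le h8 (by
      by_cases hvH : v ∈ H
      · have := h7 H hH hvH
        omega
      · exact h4 ▸ h2.card_le H ⟨hvH, hH⟩)).symm⟩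
    have h9 := hp _ _ f1 f2
    rw [card_insert_of_notMem hF.1, h3, h4] at h9
    subst h9
    exact ⟨_, VDd.step K v d1 hK hv h1 h2⟩

lemma shellable_of_vdd {d : ℕ} {K : Set (Finset V)} (h : VDd d K) : Shellable K := by
  have hf := facet_card h.ext
  refine ⟨fun F G hF hG => ((hf F).mp hF).2.trans ((hf G).mp hG).2.symm, ?_⟩
  obtain ⟨m, F, h1, h2, h3⟩ := shell h
  refine ⟨m, fun i => F i.val, fun i j e => Fin.ext (h1 _ i.2 _ j.2 e), fun G => ?_, ?_⟩
  · rw [hf, h2]
    exact ⟨fun ⟨i, hi, e⟩ => ⟨⟨i, hi⟩, e⟩, fun ⟨i, e⟩ => ⟨i.val, i.2, e⟩⟩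
  · rintro j - H ⟨⟨a1, i, hi, a2⟩, a3⟩
    obtain ⟨v, v1, v2, k, k1, k2⟩ := h3 j.val j.2 i.val hi
    have := a3 ((F j.val).erase v) ⟨erase_subset _ _, ⟨k, k1.trans j.2⟩, k1, k2⟩
      (fun a ha => mem_erase.mpr ⟨fun e => v2 (e ▸ a2 ha), a1 ha⟩)
    rw [← this]
    exact card_erase_add_one v1

/-- Stacking the facets in `T`. -/
def st (K : Set (Finset V)) (T : Set (Finset V)) : Set (Finset (V ⊕ Finset V)) :=
  {H | (∃ G ∈ K, G ∉ T ∧ H = G.map Function.Embedding.inl) ∨
    ∃ F G, F ∈ T ∧ (G ⊂ F ∧ H = insert (Sum.inr F) (G.map Function.Embedding.inl))}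

omit [DecidableEq V] in
lemma inr_not (F G : Finset V) :
    Sum.inr F ∉ G.map (Function.Embedding.inl : V ↪ V ⊕ Finset V) := by
  simp

lemma st_step {K : Set (Finset V)} {T : Set (Finset V)} {F : Finset V} {d : ℕ} (hF : F ∈ K)
    (hT : F ∉ T) (hne : F.Nonempty) (h : VDd d (st K (insert F T))) : VDd d (st K T) := by
  have := unstack h (Sum.inr F) (F.map Function.Embedding.inl) (inr_not _ _) (by
      rintro (⟨G, -, h1, e⟩ | ⟨F', G, -, -, e⟩)
      · exact h1 (Or.inl (map_injective _ e).symm)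
      · exact inr_not F' F (e ▸ mem_insert_self _ _))
    (by simpa using hne) (by
      intro H hH
      constructor
      · rintro (⟨G, -, -, e⟩ | ⟨F', G, -, h1, e⟩)
        · exact absurd (e ▸ mem_insert_self _ _) (inr_not F G)
        · have h2 : Sum.inr F ∈ insert (Sum.inr F') (G.map Function.Embedding.inl) :=
            e ▸ mem_insert_self _ _
          have h3 : F = F' := by simpa using h2
          subst h3
          have h4 := congrArg (fun s => s.erase (Sum.inr F)) e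
          simp only [erase_insert hH, erase_insert (inr_not F G)] at h4
          rw [h4]
          exact map_ssubset_map.mpr h1
      · intro h1
        obtain ⟨G, -, rfl⟩ := subset_map_iff.mp h1.subset
        exact Or.inr ⟨F, G, Or.inl rfl, map_ssubset_map.mp h1, rfl⟩)
  convert this using 1
  ext H
  constructor
  · rintro (⟨G, h1, h2, rfl⟩ | ⟨F', G, h1, h2, rfl⟩)
    · by_cases e : G = F
      · exact Or.inl (e ▸ rfl)
      · exact Or.inr ⟨inr_not _ _, Or.inl ⟨G, h1, fun h => h.elim e h2, rfl⟩⟩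
    · refine Or.inr ⟨?_, Or.inr ⟨F', G, Or.inr h1, h2, rfl⟩⟩
      have : F ≠ F' := fun e => hT (e ▸ h1)
      simp [this]
  · rintro (rfl | ⟨h0, ⟨G, h1, h2, rfl⟩ | ⟨F', G, h1, h2, rfl⟩⟩)
    · exact Or.inl ⟨F, hF, hT, rfl⟩
    · exact Or.inl ⟨G, h1, fun h => h2 (Or.inr h), rfl⟩
    · rcases h1 with rfl | h1
      · exact absurd (mem_insert_self _ _) h0
      · exact Or.inr ⟨F', G, h1, h2, rfl⟩

lemma st_all {K : Set (Finset V)} {d : ℕ} (T : Set (Finset V)) (hT : T.Finite) :
    (∀ F ∈ T, F ∈ K ∧ F.Nonempty) → VDd d (st K T) → VDd d (st K ∅) := by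
  induction T, hT using Set.Finite.induction_on with
  | empty => exact fun _ h => h
  | @insert F T h1 _ ih =>
    intro h2 h3
    exact ih (fun G hG => h2 G (Or.inr hG))
      (st_step (h2 F (Or.inl rfl)).1 h1 (h2 F (Or.inl rfl)).2 h3)

/-- If stacking all facets of a finite simplicial complex gives a vertex decomposable complex,
then the complex is shellable. -/
theorem result (V : Type) [DecidableEq V] (K : Set (Finset V)) (hK : IsComplex K)
    (h : VD (stackAll K)) : Shellable K := by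
  obtain ⟨hfin, -, hD⟩ := hK
  have hdown : Down (stackAll K) := by
    rintro _ (⟨G, h1, h2, rfl⟩ | ⟨F, G, h1, h2, rfl⟩) H hH
    · obtain ⟨H0, h3, rfl⟩ := subset_map_iff.mp hH
      refine Or.inl ⟨H0, hD G h1 H0 h3, fun hf => h2 ?_, rfl⟩
      rwa [hf.2 G h1 h3]
    · obtain ⟨H0, h3, h4⟩ := subset_map_iff.mp (subset_insert_iff.mp hH)
      by_cases hx : Sum.inr F ∈ H
      · exact Or.inr ⟨F, H0, h1, lt_of_le_of_lt h3 h2, by rw [← h4, insert_erase hx]⟩
      · rw [erase_eq_of_notMem hx] at h4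
        have h5 : H0 ⊂ F := lt_of_le_of_lt h3 h2
        exact Or.inl ⟨H0, hD F h1.1 H0 h5.subset,
          fun hf => h5.ne (hf.2 F h1.1 h5.subset).symm, h4⟩
  obtain ⟨d, hd⟩ := vdd_of_vd h hdown
  have h1 : VDd d (st K ∅) := by
    refine st_all {F | Facet K F} (hfin.subset fun F hF => hF.1) (fun F hF => ⟨hF.1, ?_⟩) hd
    rw [nonempty_iff_ne_empty]
    rintro rfl
    rcases hd.empty_mem with ⟨G, h1, h2, -⟩ | ⟨F, G, -, -, e⟩
    · exact h2 (hF.2 G h1 (empty_subset _) ▸ hF)
    · exact insert_ne_empty _ _ e.symm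
  have h2 := pull Function.Embedding.inl h1 (by
    rintro _ (⟨G, -, -, rfl⟩ | ⟨F, G, h3, -⟩)
    · exact ⟨G, rfl⟩
    · exact h3.elim)
  apply shellable_of_vdd (d := d)
  convert h2 using 1
  ext G
  constructor
  · exact fun hG => Or.inl ⟨G, hG, fun h => h, rfl⟩
  · rintro (⟨G', h3, -, e⟩ | ⟨F, G', h3, -⟩)
    · rwa [map_injective _ e]
    · exact h3.elim

end Pool.Agent.Results.MP_1611d4_co.NoSuchSphere
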